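import Pool.Agent.Q41.GT.Stm6
import Pool.Agent.Q41.GT.Elem

/-!
# AH-A8 (helper285): subvarieties of finite covers of the moduli spaces are of general type
-/

set_option autoImplicit false

namespace Pool.Agent.Q285.GT

open Finset Polynomial FF
open Pool.Agent.W602.GT
open Pool.Agent.Q41.GT
open Pool.Agent.W277.UH (ratP1 ratP1_none0 ratP1_some ratP1_some0)

section maps

variable {K L : Type*} [Field K] [Field L]

lemma ratP1_map (T : K →+* L) (p q : Polynomial K) (d : ℕ) (z : Option K) :
    ratP1 (p.map T) (q.map T) d (z.map T) = (ratP1 p q d z).map T := by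
  cases z with
  | none =>
    by_cases h : q.coeff d = 0
    · rw [ratP1_none0 p q d h]
      show ratP1 (p.map T) (q.map T) d none = none
      rw [ratP1_none0]
      rw [Polynomial.coeff_map, h, map_zero]
    · rw [Pool.Agent.W277.UH.ratP1_none p q d h]
      show ratP1 (p.map T) (q.map T) d none = some _
      rw [Pool.Agent.W277.UH.ratP1_none]
      · rw [Polynomial.coeff_map, Polynomial.coeff_map, map_div₀]
      · rw [Polynomial.coeff_map]
        exact (map_ne_zero T).2 h
  | some x =>
    have hx : ∀ g : Polynomial K, (g.map T).eval (T x) = T (g.eval x) := fun g => by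
      rw [Polynomial.eval_map, Polynomial.eval₂_hom]
    by_cases h : q.eval x = 0
    · rw [ratP1_some0 p q d x h]
      show ratP1 (p.map T) (q.map T) d (some (T x)) = none
      rw [ratP1_some0]
      rw [hx, h, map_zero]
    · rw [ratP1_some p q d x h]
      show ratP1 (p.map T) (q.map T) d (some (T x)) = some _
      rw [ratP1_some]
      · rw [hx, hx, map_div₀]
      · rw [hx]
        exact (map_ne_zero T).2 h

lemma ratP1_iter_map (T : K →+* L) (p q : Polynomial K) (d : ℕ) (z : Option K) (m : ℕ) :
    (ratP1 (p.map T) (q.map T) d)^[m] (z.map T) = ((ratP1 p q d)^[m] z).map T := by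
  induction m with
  | zero => rfl
  | succ m ih => rw [Function.iterate_succ_apply', ih, ratP1_map, Function.iterate_succ_apply']

lemma num_map (T : K →+* L) (d : ℕ) (x : Sg d → K) :
    num d (fun i => T (x i)) = (num d x).map T := by
  unfold num
  rw [Polynomial.map_sum]
  refine Finset.sum_congr rfl fun i _ => ?_
  rw [Polynomial.map_mul, Polynomial.map_C, Polynomial.map_pow, Polynomial.map_X]

lemma den_map (T : K →+* L) (d : ℕ) (x : Sg d → K) :
    den d (fun i => T (x i)) = (den d x).map T := by
  unfold den
  rw [num_map, Polynomial.map_add, Polynomial.map_add, Polynomial.map_pow, Polynomial.map_X,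
    Polynomial.map_sum, Polynomial.map_C, Polynomial.coeff_map]
  congr 2
  refine Finset.sum_congr rfl fun i _ => ?_
  rw [Polynomial.map_mul, Polynomial.map_C, Polynomial.map_pow, Polynomial.map_X]

/-- the moduli space is functorial -/
lemma V_map (T : K →+* L) (d n : ℕ) (x : Sg d → K) (hx : x ∈ V d n K) :
    (fun i => T (x i)) ∈ V d n L := by
  refine ⟨?_, ?_⟩
  · rw [num_map, den_map]
    exact hx.1.map (Polynomial.mapRingHom T)
  · have h1 := hx.2
    rw [num_map, den_map, ← h1]
    have key : ∀ m, Function.IsPeriodicPt (ratP1 ((num d x).map T) ((den d x).map T) d) m none ↔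
        Function.IsPeriodicPt (ratP1 (num d x) (den d x) d) m none := by
      intro m
      have h2 := ratP1_iter_map T (num d x) (den d x) d none m
      unfold Function.IsPeriodicPt Function.IsFixedPt
      rw [Option.map_none] at h2
      rw [h2]
      exact Option.map_eq_none_iff
    exact Nat.dvd_antisymm ((key _).2 (Function.isPeriodicPt_minimalPeriod _ _)).minimalPeriod_dvd
      ((key _).1 (Function.isPeriodicPt_minimalPeriod _ _)).minimalPeriod_dvd

end maps

/-- the field generated by the coordinates of the projection -/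
theorem funField_image {k K σ τ : Type} [Field k] [Field K] [Algebra k K]
    (W : Set (τ ⊕ σ → k)) (x : τ ⊕ σ → K) (hF : FunField W K x) :
    FunField ((fun (y : τ ⊕ σ → k) i => y (Sum.inr i)) '' W)
      (IntermediateField.adjoin k (Set.range fun i => x (Sum.inr i)))
      (fun i => ⟨x (Sum.inr i), IntermediateField.subset_adjoin _ _ ⟨i, rfl⟩⟩) := by
  obtain ⟨K', hK'⟩ : ∃ K' : IntermediateField k K,
    K' = IntermediateField.adjoin k (Set.range fun i => x (Sum.inr i)) := ⟨_, rfl⟩
  refine ⟨?_, ?_⟩
  · intro g
    have h1 : MvPolynomial.aeval (fun i : σ => (⟨x (Sum.inr i),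
        IntermediateField.subset_adjoin _ _ ⟨i, rfl⟩⟩ :
        IntermediateField.adjoin k (Set.range fun i => x (Sum.inr i)))) g = 0 ↔
        MvPolynomial.aeval x (MvPolynomial.rename Sum.inr g) = 0 := by
      rw [MvPolynomial.aeval_rename]
      rw [← (algebraMap (IntermediateField.adjoin k (Set.range fun i => x (Sum.inr i))) K).injective.eq_iff,
        map_zero, ← MvPolynomial.aeval_algebraMap_apply]
      exact Iff.rfl
    rw [h1, hF.1, MvPolynomial.mem_vanishingIdeal_iff, MvPolynomial.mem_vanishingIdeal_iff]
    constructor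
    · rintro h _ ⟨y, hy, rfl⟩
      have h2 := h y hy
      rw [MvPolynomial.aeval_rename] at h2
      exact h2
    · intro h y hy
      rw [MvPolynomial.aeval_rename]
      exact h _ ⟨y, hy, rfl⟩
  · apply IntermediateField.map_injective
      (IntermediateField.val (IntermediateField.adjoin k (Set.range fun i => x (Sum.inr i))))
    rw [IntermediateField.adjoin_map, ← AlgHom.fieldRange_eq_map, IntermediateField.fieldRange_val,
      ← Set.range_comp]
    rfl

theorem algebraic_of_le {k K : Type} [Field k] [Field K] [Algebra k K]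
    {K' R : IntermediateField k K} (h : K' ≤ R) {y : K} (hy : IsAlgebraic K' y) :
    IsAlgebraic R y := by
  let _ := (IntermediateField.inclusion h).toRingHom.toAlgebra
  have : IsScalarTower K' R K := IsScalarTower.of_algebraMap_eq (fun _ => rfl)
  exact hy.tower_top R

theorem algebraic_of_gens {k K ι : Type} [Field k] [Field K] [Algebra k K] (x : ι → K)
    (hx : IntermediateField.adjoin k (Set.range x) = ⊤) (R : IntermediateField k K)
    (h : ∀ i, IsAlgebraic R (x i)) : Algebra.IsAlgebraic R K := by
  refine ⟨fun y => ?_⟩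
  have hy : y ∈ IntermediateField.adjoin k (Set.range x) := by
    rw [hx]
    exact IntermediateField.mem_top
  induction hy using IntermediateField.adjoin_induction with
  | mem y hy =>
    obtain ⟨i, rfl⟩ := hy
    exact h i
  | algebraMap c =>
    have : algebraMap k K c = algebraMap R K (algebraMap k R c) := rfl
    rw [this]
    exact isAlgebraic_algebraMap _
  | add y z _ _ hy hz => exact hy.add hz
  | inv y _ hy => exact hy.inv
  | mul y z _ _ hy hz => exact hy.mul hz

theorem qsub (h1 : S_prep) (h2 : S_gnp) (h3 : S_fun) (h4 : S_pos) (h5 : S_fin) : S_qsub := by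
  intro d hd
  obtain ⟨B, hB⟩ := h1 d hd
  refine ⟨max B 1, ?_⟩
  intro n hn k τ _ _ _ _ I J U hU P _ W hW hinf hP
  have hn1 : 1 ≤ n := le_trans (le_max_right _ _) hn
  have hnB : B ≤ n := le_trans (le_max_left _ _) hn
  have core : ∀ (K : Type) [Field K] [Algebra k K] (x : τ ⊕ Sg d → K), FunField W K x →
      ∃ w, 1 ≤ w ∧ GeneralType k K w := by
    intro K _ _ x hF
    obtain ⟨w, hw, htr⟩ := h4 k _ W hinf K x hF
    refine ⟨w, hw, ?_⟩
    have hWV : ((fun (y : τ ⊕ Sg d → k) i => y (Sum.inr i)) '' W) ⊆ V d n k := by
      rintro _ ⟨y, hy, rfl⟩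
      exact hU.maps y (hW hy)
    have hx1 := h2 k _ d n hd hn1 _ hWV _ (funField_image W x hF)
    have hx := V_map (algebraMap (IntermediateField.adjoin k
      (Set.range fun i : Sg d => x (Sum.inr i))) K) d n _ hx1
    have hx' : (fun i => x (Sum.inr i)) ∈ V d n K := hx
    have hFI : ∀ F ∈ I, MvPolynomial.aeval x F = 0 := by
      intro F hFI
      rw [hF.1, MvPolynomial.mem_vanishingIdeal_iff]
      intro y hy
      have hyU := hW hy
      rw [hU.loc] at hyU
      have := hyU.1 F hFI
      simpa [MvPolynomial.aeval_eq_eval] using this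
    have hGJ : ∃ G ∈ J, MvPolynomial.aeval x G ≠ 0 := by
      obtain ⟨y, hy⟩ := hinf.nonempty
      have hyU := hW hy
      rw [hU.loc] at hyU
      obtain ⟨-, G, hG, hyG⟩ := hyU
      refine ⟨G, hG, ?_⟩
      intro h0
      rw [hF.1, MvPolynomial.mem_vanishingIdeal_iff] at h0
      have := h0 y hy
      apply hyG
      simpa [MvPolynomial.aeval_eq_eval] using this
    have halg := h5 k τ d n I J U hU K x hFI hGJ
    have hle : IntermediateField.adjoin k (Set.range fun i : Sg d => x (Sum.inr i)) ≤
        IntermediateField.adjoin k (rats (num d fun i => x (Sum.inr i))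
          (den d fun i => x (Sum.inr i))) := by
      rw [IntermediateField.adjoin_le_iff]
      rintro _ ⟨i, rfl⟩
      apply IntermediateField.subset_adjoin
      rcases i with i | i
      · refine ⟨num d _, den d _, Or.inl rfl, Or.inr rfl, i, d, ?_⟩
        rw [den_coeff_top _ (by omega), num_coeff _ i i.2, div_one]
      · refine ⟨den d _, den d _, Or.inr rfl, Or.inr rfl, i + 1, d, ?_⟩
        rw [den_coeff_top _ (by omega), den_coeff _ i i.2, div_one]
    refine hB k K w hw htr (num d _) (den d _) hx'.1 (max_natDegree _ (by omega))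
      (prep_points _ (by omega) hn1 hx') ?_ ?_
    · exact algebraic_of_gens x hF.2 _ fun j => algebraic_of_le hle (halg j)
    · exact le_trans (by exact_mod_cast hnB) (many_points _ hn1 hx')
  exact core _ _ (h3 k (τ ⊕ Sg d) W P hP)

end Pool.Agent.Q285.GT
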