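import Mathlib

/-!
# AH (helper285): extension of points (the image of a dominant morphism contains an open set)
-/

set_option autoImplicit false

namespace Pool.Agent.Q285.GT

open Topology PrimeSpectrum

/-- a constructible set or its complement contains all specialisations in an open neighbourhood -/
theorem constr {X : Type*} [TopologicalSpace X] (η : X) {s : Set X} (hs : IsConstructible s) :
    (∃ U : Set X, IsOpen U ∧ η ∈ U ∧ ∀ z ∈ U, η ⤳ z → z ∈ s) ∨
      (∃ U : Set X, IsOpen U ∧ η ∈ U ∧ ∀ z ∈ U, η ⤳ z → z ∉ s) := by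
  induction hs using IsConstructible.empty_union_induction with
  | open_retrocompact U hU _ =>
    by_cases h : η ∈ U
    · exact Or.inl ⟨U, hU, h, fun z hz _ => hz⟩
    · exact Or.inr ⟨Set.univ, isOpen_univ, Set.mem_univ _,
        fun z _ hz hzU => h (hz.mem_open hU hzU)⟩
  | union s hs t ht h1 h2 =>
    rcases h1 with ⟨U, hU, hηU, h1⟩ | ⟨U, hU, hηU, h1⟩
    · exact Or.inl ⟨U, hU, hηU, fun z hz hηz => Or.inl (h1 z hz hηz)⟩
    · rcases h2 with ⟨V, hV, hηV, h2⟩ | ⟨V, hV, hηV, h2⟩
      · exact Or.inl ⟨V, hV, hηV, fun z hz hηz => Or.inr (h2 z hz hηz)⟩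
      · refine Or.inr ⟨U ∩ V, hU.inter hV, ⟨hηU, hηV⟩, fun z hz hηz hzs => ?_⟩
        rcases hzs with hzs | hzs
        · exact h1 z hz.1 hηz hzs
        · exact h2 z hz.2 hηz hzs
  | compl s hs h =>
    rcases h with ⟨U, hU, hηU, h1⟩ | ⟨U, hU, hηU, h1⟩
    · exact Or.inr ⟨U, hU, hηU, fun z hz hηz hzs => hzs (h1 z hz hηz)⟩
    · exact Or.inl ⟨U, hU, hηU, fun z hz hηz => h1 z hz hηz⟩

/-- **Extension of points.** For a point `x` over `K` and some of its coordinates `x ∘ j` there is a
polynomial `h` which does not vanish at `x ∘ j` such that every specialisation `p` over `k` of `x ∘ j`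
with `h(p) ≠ 0` extends to a specialisation `y` of `x`. -/
theorem ext_points {k K : Type} [Field k] [IsAlgClosed k] [Field K] [Algebra k K] {ι ι' : Type}
    [Finite ι] [Finite ι'] (x : ι → K) (j : ι' → ι) :
    ∃ h : MvPolynomial ι' k, MvPolynomial.aeval (fun i => x (j i)) h ≠ 0 ∧ ∀ p : ι' → k,
      (∀ g : MvPolynomial ι' k, MvPolynomial.aeval (fun i => x (j i)) g = 0 →
        MvPolynomial.eval p g = 0) → MvPolynomial.eval p h ≠ 0 →
      ∃ y : ι → k, (∀ g : MvPolynomial ι k, MvPolynomial.aeval x g = 0 →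
        MvPolynomial.eval y g = 0) ∧ ∀ i, y (j i) = p i := by
  classical
  let Q : Ideal (MvPolynomial ι k) := RingHom.ker (MvPolynomial.aeval x : MvPolynomial ι k →ₐ[k] K)
  have hQ : Q.IsPrime := RingHom.ker_isPrime _
  let f : MvPolynomial ι' k →+* MvPolynomial ι k ⧸ Q :=
    (Ideal.Quotient.mk Q).comp (MvPolynomial.rename j : MvPolynomial ι' k →ₐ[k] _).toRingHom
  have hf : f.FinitePresentation := by
    rw [← RingHom.FinitePresentation.of_finiteType]
    have h1 : (f.comp (MvPolynomial.C : k →+* MvPolynomial ι' k)).FiniteType := by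
      have e : f.comp (MvPolynomial.C : k →+* MvPolynomial ι' k) =
          (Ideal.Quotient.mk Q).comp (MvPolynomial.C : k →+* MvPolynomial ι k) := by
        ext c
        simp [f]
      rw [e]
      refine RingHom.FiniteType.comp
        (RingHom.FiniteType.of_surjective _ Ideal.Quotient.mk_surjective) ?_
      rw [← MvPolynomial.algebraMap_eq, RingHom.finiteType_algebraMap]
      infer_instance
    exact RingHom.FiniteType.of_comp_finiteType h1
  have hcon : IsConstructible (Set.range (comap f)) := isConstructible_range_comap hf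
  obtain ⟨η, hη⟩ : ∃ η : PrimeSpectrum (MvPolynomial ι' k), η = comap f ⊥ := ⟨_, rfl⟩
  have hηm : ∀ g : MvPolynomial ι' k, g ∈ η.asIdeal ↔
      MvPolynomial.aeval (fun i => x (j i)) g = 0 := by
    intro g
    have e1 : g ∈ η.asIdeal ↔ f g = 0 := by
      rw [hη, PrimeSpectrum.comap_asIdeal, Ideal.mem_comap, PrimeSpectrum.asIdeal_bot,
        Ideal.mem_bot]
    rw [e1]
    have e2 : f g = 0 ↔ MvPolynomial.rename j g ∈ Q := by
      exact Ideal.Quotient.eq_zero_iff_mem
    rw [e2, RingHom.mem_ker, MvPolynomial.aeval_rename]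
    rfl
  rcases constr η hcon with ⟨U, hU, hηU, h1⟩ | ⟨U, hU, hηU, h1⟩
  · obtain ⟨_, ⟨h, rfl⟩, hh1, hh2⟩ :=
      PrimeSpectrum.isTopologicalBasis_basic_opens.exists_subset_of_mem_open hηU hU
    refine ⟨h, ?_, ?_⟩
    · intro h0
      exact (PrimeSpectrum.mem_basicOpen _ _).1 hh1 ((hηm h).2 h0)
    · intro p hp hph
      let z : PrimeSpectrum (MvPolynomial ι' k) :=
        ⟨RingHom.ker (MvPolynomial.eval p), RingHom.ker_isPrime _⟩
      have hz1 : z ∈ U := hh2 ((PrimeSpectrum.mem_basicOpen _ _).2 hph)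
      have hz2 : η ⤳ z := by
        rw [← PrimeSpectrum.le_iff_specializes]
        intro g hg
        exact hp g ((hηm g).1 hg)
      obtain ⟨q, hq⟩ := h1 z hz1 hz2
      obtain ⟨M, hM, hqM⟩ := Ideal.exists_le_maximal q.asIdeal q.2.ne_top
      have hN : (M.comap (Ideal.Quotient.mk Q)).IsMaximal :=
        Ideal.comap_isMaximal_of_surjective _ Ideal.Quotient.mk_surjective
      obtain ⟨y, hy⟩ := MvPolynomial.isMaximal_iff_eq_vanishingIdeal_singleton.1 hN
      have hmem : ∀ g : MvPolynomial ι k, Ideal.Quotient.mk Q g ∈ M → MvPolynomial.eval y g = 0 := by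
        intro g hg
        have h2 : g ∈ M.comap (Ideal.Quotient.mk Q) := hg
        rw [hy, MvPolynomial.mem_vanishingIdeal_singleton_iff] at h2
        simpa [MvPolynomial.aeval_eq_eval] using h2
      refine ⟨y, ?_, ?_⟩
      · intro g hg
        apply hmem
        have : Ideal.Quotient.mk Q g = 0 := Ideal.Quotient.eq_zero_iff_mem.2 hg
        rw [this]
        exact M.zero_mem
      · intro i
        have h2 : MvPolynomial.X i - MvPolynomial.C (p i) ∈ z.asIdeal := by
          change MvPolynomial.eval p _ = 0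
          simp
        rw [← hq, PrimeSpectrum.comap_asIdeal, Ideal.mem_comap] at h2
        have h3 := hmem (MvPolynomial.X (j i) - MvPolynomial.C (p i)) (by
          have := hqM h2
          simpa [f] using this)
        simpa [sub_eq_zero] using h3
  · exfalso
    exact h1 η hηU specializes_rfl ⟨⊥, hη.symm⟩

end Pool.Agent.Q285.GT
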