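import Pool.Agent.Q41.GT.Stm6
import Pool.Agent.Q285.GT.ExtPt

/-!
# AH-A7 (helper285): finite fibres
-/

set_option autoImplicit false

namespace Pool.Agent.Q285.GT

open MvPolynomial
open Pool.Agent.Q41.GT

section opt

variable {k : Type} [Field k] {σ : Type}

/-- the value of a polynomial in the variables `σ` and one more variable -/
theorem aeval_opt {E : Type} [CommRing E] [Algebra k E] (Y : E) (x : σ → E)
    (H : MvPolynomial (Option σ) k) :
    aeval (fun o : Option σ => o.elim Y x) H =
      ((optionEquivLeft k σ H).map (aeval x : MvPolynomial σ k →ₐ[k] E).toRingHom).eval Y := by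
  rw [Polynomial.eval_map]
  induction H using MvPolynomial.induction_on with
  | C c => simp [optionEquivLeft_C]
  | add p q hp hq => rw [map_add, map_add, Polynomial.eval₂_add, hp, hq]
  | mul_X p i hp =>
    rw [map_mul, map_mul, Polynomial.eval₂_mul, hp, aeval_X]
    rcases i with _ | i
    · rw [optionEquivLeft_X_none, Polynomial.eval₂_X]; rfl
    · rw [optionEquivLeft_X_some, Polynomial.eval₂_C]
      congr 1
      simp

/-- Nullstellensatz for a point over a field extension -/
theorem exists_point [IsAlgClosed k] [Finite σ] {K : Type} [Field K] [Algebra k K] (x : σ → K)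
    (c : MvPolynomial σ k) (hc : aeval x c ≠ 0) :
    ∃ p : σ → k, (∀ g : MvPolynomial σ k, aeval x g = 0 → eval p g = 0) ∧ eval p c ≠ 0 := by
  let Q : Ideal (MvPolynomial σ k) := RingHom.ker (aeval x : MvPolynomial σ k →ₐ[k] K)
  have hQ : Q.IsPrime := RingHom.ker_isPrime _
  have h1 : vanishingIdeal k (zeroLocus k Q) = Q := IsPrime.vanishingIdeal_zeroLocus Q
  have h2 : c ∉ vanishingIdeal k (zeroLocus k Q) := by
    rw [h1]
    exact hc
  rw [mem_vanishingIdeal_iff] at h2
  push Not at h2
  obtain ⟨p, hp, hpc⟩ := h2
  refine ⟨p, ?_, ?_⟩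
  · intro g hg
    have := (mem_zeroLocus_iff.1 hp) g hg
    simpa [aeval_eq_eval] using this
  · simpa [aeval_eq_eval] using hpc

end opt

theorem fin7 : S_fin := by
  classical
  intro k τ _ _ _ d n I J U hU K _ _ x hF hG j
  obtain ⟨G, hGJ, hG⟩ := hG
  rcases j with t | i
  swap
  · exact isAlgebraic_algebraMap (⟨x (Sum.inr i), IntermediateField.subset_adjoin _ _ ⟨i, rfl⟩⟩ :
      IntermediateField.adjoin k (Set.range fun i => x (Sum.inr i)))
  by_contra htr
  have htr' : Transcendental (IntermediateField.adjoin k (Set.range fun i => x (Sum.inr i)))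
      (x (Sum.inl t)) := htr
  rw [transcendental_iff] at htr'
  let x' : Sg d → K := fun i => x (Sum.inr i)
  let x'' : Sg d → IntermediateField.adjoin k (Set.range fun i => x (Sum.inr i)) :=
    fun i => ⟨x (Sum.inr i), IntermediateField.subset_adjoin _ _ ⟨i, rfl⟩⟩
  have hx'' : ∀ g : MvPolynomial (Sg d) k, algebraMap _ K (aeval x'' g) = aeval x' g := by
    intro g
    rw [← MvPolynomial.aeval_algebraMap_apply]
    rfl
  -- polynomials vanishing at `(x', x (inl t))`
  have key : ∀ g : MvPolynomial (Option (Sg d)) k,
      aeval (fun o : Option (Sg d) => o.elim (x (Sum.inl t)) x') g = 0 →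
      ∀ m, aeval x' ((optionEquivLeft k (Sg d) g).coeff m) = 0 := by
    intro g hg m
    rw [aeval_opt] at hg
    have h1 : (optionEquivLeft k (Sg d) g).map
        (aeval x' : MvPolynomial (Sg d) k →ₐ[k] K).toRingHom =
        ((optionEquivLeft k (Sg d) g).map (aeval x'' : MvPolynomial (Sg d) k →ₐ[k] _).toRingHom).map
          (algebraMap _ K) := by
      rw [Polynomial.map_map]
      congr 1
      apply RingHom.ext
      intro c
      exact (hx'' c).symm
    rw [h1, Polynomial.eval_map_algebraMap] at hg
    have h2 := htr' _ hg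
    have h3 := congrArg (fun P => Polynomial.coeff P m) h2
    simp only [Polynomial.coeff_map, Polynomial.coeff_zero] at h3
    have h4 : aeval x'' ((optionEquivLeft k (Sg d) g).coeff m) = 0 := h3
    rw [← hx'', h4, map_zero]
  -- the extension of points
  let X : Option (τ ⊕ Sg d) → K := fun o => o.elim (aeval x G)⁻¹ x
  let jj : Option (Sg d) → Option (τ ⊕ Sg d) :=
    fun o => o.elim (some (Sum.inl t)) (fun i => some (Sum.inr i))
  have hjj : (fun o => X (jj o)) = fun o : Option (Sg d) => o.elim (x (Sum.inl t)) x' := by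
    funext o
    rcases o with _ | o <;> rfl
  obtain ⟨h, hh, hext⟩ := ext_points (k := k) X jj
  rw [hjj] at hh hext
  obtain ⟨m, hm⟩ : ∃ m, aeval x' ((optionEquivLeft k (Sg d) h).coeff m) ≠ 0 := by
    by_contra hcon
    push Not at hcon
    apply hh
    rw [aeval_opt]
    have : (optionEquivLeft k (Sg d) h).map
        (aeval x' : MvPolynomial (Sg d) k →ₐ[k] K).toRingHom = 0 := by
      ext m
      rw [Polynomial.coeff_map, Polynomial.coeff_zero]
      exact hcon m
    rw [this, Polynomial.eval_zero]
  obtain ⟨p', hp', hp'm⟩ := exists_point x' _ hm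
  let T : Set k := {ξ | eval (fun o : Option (Sg d) => o.elim ξ p') h ≠ 0}
  have heval : ∀ (ξ : k) (g : MvPolynomial (Option (Sg d)) k),
      eval (fun o : Option (Sg d) => o.elim ξ p') g =
        ((optionEquivLeft k (Sg d) g).map (eval p')).eval ξ := by
    intro ξ g
    have h1 := aeval_opt (k := k) ξ p' g
    rw [aeval_eq_eval] at h1
    refine h1.trans ?_
    congr 2
  have hTinf : T.Infinite := by
    have hk : Infinite k := IsAlgClosed.instInfinite
    have h1 : Tᶜ.Finite := by
      refine (((optionEquivLeft k (Sg d) h).map (eval p')).roots.toFinset.finite_toSet).subset ?_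
      intro ξ hξ
      have h2 : eval (fun o : Option (Sg d) => o.elim ξ p') h = 0 := by
        by_contra hcon
        exact hξ hcon
      rw [heval] at h2
      rw [Finset.mem_coe, Multiset.mem_toFinset, Polynomial.mem_roots, Polynomial.IsRoot]
      · exact h2
      · intro h0
        have h3 := congrArg (fun P => Polynomial.coeff P m) h0
        simp only [Polynomial.coeff_map, Polynomial.coeff_zero] at h3
        exact hp'm h3
    exact Set.infinite_of_finite_compl h1
  have hy : ∀ ξ ∈ T, ∃ y : τ ⊕ Sg d → k, (y ∈ U ∧ (fun i => y (Sum.inr i)) = p') ∧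
      y (Sum.inl t) = ξ := by
    intro ξ hξ
    obtain ⟨y, hy1, hy2⟩ := hext (fun o => o.elim ξ p') (by
      intro g hg
      rw [heval]
      have h1 : (optionEquivLeft k (Sg d) g).map (eval p') = 0 := by
        ext m
        rw [Polynomial.coeff_map, Polynomial.coeff_zero]
        exact hp' _ (key g hg m)
      rw [h1, Polynomial.eval_zero]) hξ
    refine ⟨fun i => y (some i), ⟨?_, ?_⟩, hy2 none⟩
    · rw [hU.loc]
      refine ⟨?_, G, hGJ, ?_⟩
      · intro F hFI
        have h1 := hy1 (rename some F) (by
          rw [aeval_rename]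
          exact hF F hFI)
        rw [eval_rename] at h1
        exact h1
      · have h1 := hy1 (MvPolynomial.X none * rename some G - 1) (by
          rw [map_sub, map_mul, aeval_X, aeval_rename, map_one]
          have : (aeval (X ∘ some)) G = aeval x G := rfl
          rw [this]
          change (aeval x G)⁻¹ * aeval x G - 1 = 0
          rw [inv_mul_cancel₀ hG, sub_self])
        intro h2
        rw [map_sub, map_mul, eval_X, eval_rename, map_one] at h1
        have h3 : (eval (y ∘ some)) G = 0 := h2
        rw [h3, mul_zero, zero_sub, neg_eq_zero] at h1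
        exact one_ne_zero h1
    · funext i
      exact hy2 (some i)
  choose! y hy1 hy2 using hy
  have hfin := hU.fin p'
  have hinf : {y | y ∈ U ∧ (fun i => y (Sum.inr i)) = p'}.Infinite := by
    refine Set.infinite_of_injOn_mapsTo (f := y) (s := T) ?_ (fun ξ hξ => hy1 ξ hξ) hTinf
    intro ξ hξ ξ' hξ' he
    rw [← hy2 ξ hξ, ← hy2 ξ' hξ', he]
  exact hinf hfin

end Pool.Agent.Q285.GT
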